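import Mathlib
import Pool.Agent.helper82.SBK.Final

set_option autoImplicit false

/-!
# Superbridge index: `sb[K₁ # K₂] ≤ sb[K₁] + sb[K₂] - 2` fails
-/

namespace Pool.Agent.Results.MP_f4492a_gt.Disproof

open Pool.Agent.helper82.SB

/-- There are a nontrivial knot `K` (the figure-eight knot) and a connected sum `Q` of `K` with itself
with `sb K ≤ 3` and `sb Q ≥ 5`; so `sb (K # K) ≥ sb K + sb K - 1`. -/
theorem result : ∃ K Q : PolyKnot, ¬ Trivial K ∧ IsConnectedSum K K Q ∧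
    superbridge K ≤ 3 ∧ 5 ≤ superbridge Q :=
  ⟨Pool.Agent.helper82.SBK.K8, Pool.Agent.helper82.SBK.Q8,
    Pool.Agent.helper82.SBK.nontrivial8, Pool.Agent.helper82.SBK.sum8,
    Pool.Agent.helper82.SBK.sbK, Pool.Agent.helper82.SBK.five8⟩

end Pool.Agent.Results.MP_f4492a_gt.Disproof
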