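import Mathlib
import Pool.Agent.helper82.SB.Main

set_option autoImplicit false

/-!
# `sb[K₁ # K₂] ≤ sb[K₁] + sb[K₂] - 1` for all nontrivial knots
-/

namespace Pool.Agent.Results.MP_f4492a_gt.MinusOne

open Pool.Agent.helper82.SB

/-- For all nontrivial (oriented, polygonal) knots `K₁`, `K₂` there is a connected sum `Q` of `K₁` and
`K₂` whose superbridge index is at most `sb K₁ + sb K₂ - 1`. -/
theorem result (K₁ K₂ : PolyKnot) (h₁ : ¬ Trivial K₁) (h₂ : ¬ Trivial K₂) :
    ∃ Q : PolyKnot, IsConnectedSum K₁ K₂ Q ∧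
      superbridge Q + 1 ≤ superbridge K₁ + superbridge K₂ :=
  main K₁ K₂ h₁ h₂

end Pool.Agent.Results.MP_f4492a_gt.MinusOne
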